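import Mathlib
import Pool.Agent.V1180.CondConj

/-!
# An analytic IFS with super-exponential condensation, without exact overlaps, and not
sub-conjugated to a self-similar IFS
-/

set_option autoImplicit false

namespace Pool.Agent.Results.MP_6f21ce_an.NotSubconjugated

open Set Pool.Agent.V1180.Cond

/-- `I = [0,1]` as a subset of the complex plane -/
def seg : Set ℂ := (fun x : ℝ => (x : ℂ)) '' Icc (0:ℝ) 1

/-- `B_δ = {z : dist(z, I) < δ}` -/
def nbhd (δ : ℝ) : Set ℂ := Metric.thickening δ seg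

/-- The tuple `f` is an analytic IFS (for the given `ε`): `N ≥ 2`, and each `f i` is given on
`B_{2ε} ∩ ℝ` by a function `F` which is complex analytic on `B_{2ε}`, with `f i (I) ⊆ I`,
`F (closure B_ε) ⊆ B_ε` and `0 < |F'| < 1` on the closure of `B_ε`. -/
def IsAnalyticIFS (ε : ℝ) {N : ℕ} (f : Fin N → ℝ → ℝ) : Prop :=
  2 ≤ N ∧ ∀ i, ∃ F : ℂ → ℂ,
    (∀ x : ℝ, (x : ℂ) ∈ nbhd (2 * ε) → F x = (f i x : ℂ)) ∧
    AnalyticOnNhd ℂ F (nbhd (2 * ε)) ∧
    MapsTo (f i) (Icc 0 1) (Icc 0 1) ∧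
    MapsTo F (closure (nbhd ε)) (nbhd ε) ∧
    ∀ z ∈ closure (nbhd ε), 0 < ‖deriv F z‖ ∧ ‖deriv F z‖ < 1

/-- The exponential separation condition: there is `c > 0` such that for infinitely many `n`
one has `sup_{x ∈ I} |f_u(x) - f_v(x)| ≥ c^n` for all distinct words `u, v` of length `n`. -/
def ESC {N : ℕ} (f : Fin N → ℝ → ℝ) : Prop :=
  ∃ c : ℝ, 0 < c ∧ ∀ K : ℕ, ∃ n : ℕ, K ≤ n ∧ ∀ u v : List (Fin N), u.length = n →
    v.length = n → u ≠ v → c ^ n ≤ ⨆ x : Icc (0:ℝ) 1, |comp f u x - comp f v x|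

/-- `f_u = f_v` on `I` for two distinct finite words `u, v`. -/
def ExactOverlap {N : ℕ} (f : Fin N → ℝ → ℝ) : Prop :=
  ∃ u v : List (Fin N), u ≠ v ∧ ∀ x ∈ Icc (0:ℝ) 1, comp f u x = comp f v x

/-- There are distinct words `u, v` of the same length and an injective analytic `g` on `I`
(analytic on a neighbourhood of `I`) with `g ∘ f_u = λ₁ g + t₁`, `g ∘ f_v = λ₂ g + t₂` on `I`. -/
def SubConjugated {N : ℕ} (f : Fin N → ℝ → ℝ) : Prop :=
  ∃ u v : List (Fin N), u ≠ v ∧ u.length = v.length ∧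
    ∃ g : ℝ → ℝ, AnalyticOnNhd ℝ g (Icc 0 1) ∧ InjOn g (Icc 0 1) ∧
      ∃ l₁ l₂ t₁ t₂ : ℝ, l₁ ∈ Ioo (-1 : ℝ) 1 ∧ l₁ ≠ 0 ∧ l₂ ∈ Ioo (-1 : ℝ) 1 ∧ l₂ ≠ 0 ∧
        ∀ x ∈ Icc (0:ℝ) 1, g (comp f u x) = l₁ * g x + t₁ ∧ g (comp f v x) = l₂ * g x + t₂

/-! ## the complex extensions -/

lemma norm_lt_of_nbhd {δ : ℝ} {z : ℂ} (hz : z ∈ nbhd δ) : ‖z‖ < 1 + δ := by
  obtain ⟨y, ⟨x, hx, rfl⟩, hd⟩ := Metric.mem_thickening_iff.1 hz
  rw [dist_eq_norm] at hd
  have h1 : ‖z‖ ≤ ‖z - (x:ℂ)‖ + ‖(x:ℂ)‖ := by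
    simpa using norm_add_le (z - (x:ℂ)) (x:ℂ)
  have h2 : ‖(x:ℂ)‖ ≤ 1 := by
    rw [Complex.norm_real, Real.norm_eq_abs, abs_of_nonneg hx.1]; exact hx.2
  have h3 : ‖z - (x:ℂ)‖ < δ := hd
  linarith

lemma closure_nbhd {ε : ℝ} (hε : 0 < ε) {z : ℂ} (hz : z ∈ closure (nbhd ε)) :
    ∃ x ∈ Icc (0:ℝ) 1, ‖z - (x:ℂ)‖ ≤ ε := by
  have h1 : z ∈ Metric.cthickening ε seg := Metric.closure_thickening_subset_cthickening _ _ hz
  have hc : IsCompact seg := isCompact_Icc.image Complex.continuous_ofReal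
  rw [hc.cthickening_eq_biUnion_closedBall hε.le] at h1
  simp only [mem_iUnion] at h1
  obtain ⟨y, ⟨x, hx, rfl⟩, h2⟩ := h1
  exact ⟨x, hx, by simpa [dist_eq_norm] using h2⟩

/-- complex Moebius map -/
noncomputable def Fm (q : ℝ) (z : ℂ) : ℂ := (z / 2) / (1 - q * z)

/-- complex quadratic map -/
noncomputable def Fq (C R : ℝ) (z : ℂ) : ℂ := 1 - (z - C) ^ 2 / (20 * R ^ 2)

lemma den_bound {q R : ℝ} (hq : 0 ≤ q) (hqR : q * R ≤ 1 / 10) {z : ℂ} (hz : ‖z‖ ≤ R) :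
    (9 / 10 : ℝ) ≤ ‖1 - (q:ℂ) * z‖ := by
  have h1 : ‖(q:ℂ) * z‖ ≤ 1 / 10 := by
    rw [norm_mul, Complex.norm_real, Real.norm_eq_abs, abs_of_nonneg hq]
    calc q * ‖z‖ ≤ q * R := by gcongr
      _ ≤ 1 / 10 := hqR
  have h2 : ‖(1:ℂ)‖ - ‖(q:ℂ) * z‖ ≤ ‖1 - (q:ℂ) * z‖ := norm_sub_norm_le _ _
  rw [norm_one] at h2
  linarith

lemma den_ne {q R : ℝ} (hq : 0 ≤ q) (hqR : q * R ≤ 1 / 10) {z : ℂ} (hz : ‖z‖ ≤ R) :
    (1 - (q:ℂ) * z) ≠ 0 := by
  intro h
  have := den_bound hq hqR hz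
  rw [h, norm_zero] at this
  linarith

lemma Fm_deriv {q : ℝ} {z : ℂ} (h : (1 - (q:ℂ) * z) ≠ 0) :
    deriv (Fm q) z = (1 / 2) / (1 - (q:ℂ) * z) ^ 2 := by
  have h1 : HasDerivAt (fun z : ℂ => z / 2) (1 / 2) z := (hasDerivAt_id z).div_const 2
  have h2 : HasDerivAt (fun z : ℂ => 1 - (q:ℂ) * z) (-(q * 1)) z :=
    ((hasDerivAt_id z).const_mul (q:ℂ)).const_sub 1
  have h3 := h1.div h2 h
  have h4 : deriv (Fm q) z = _ := h3.deriv
  rw [h4]
  congr 1
  ring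

lemma Fq_deriv (C R : ℝ) (z : ℂ) :
    deriv (Fq C R) z = -(2 * (z - C) / (20 * R ^ 2)) := by
  have h1 : HasDerivAt (fun z : ℂ => z - C) 1 z := (hasDerivAt_id z).sub_const _
  have h2 := ((h1.pow 2).div_const (20 * (R:ℂ) ^ 2)).const_sub 1
  have h3 : deriv (Fq C R) z = _ := h2.deriv
  rw [h3]
  simp

lemma Fm_lip {q R : ℝ} (hq : 0 ≤ q) (hqR : q * R ≤ 1 / 10) {z w : ℂ} (hz : ‖z‖ ≤ R)
    (hw : ‖w‖ ≤ R) : ‖Fm q z - Fm q w‖ ≤ (7 / 10) * ‖z - w‖ := by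
  have d1 := den_bound hq hqR hz
  have d2 := den_bound hq hqR hw
  have n1 := den_ne hq hqR hz
  have n2 := den_ne hq hqR hw
  have e : Fm q z - Fm q w = (1 / 2) * (z - w) / ((1 - (q:ℂ) * z) * (1 - (q:ℂ) * w)) := by
    unfold Fm
    rw [div_sub_div _ _ n1 n2]
    congr 1
    ring
  rw [e, norm_div, norm_mul, norm_mul]
  have h12 : ‖(1 / 2 : ℂ)‖ = 1 / 2 := by simp
  rw [h12, div_le_iff₀ (by positivity)]
  have hn := norm_nonneg (z - w)
  have : (81/100 : ℝ) ≤ ‖1 - (q:ℂ) * z‖ * ‖1 - (q:ℂ) * w‖ := by nlinarith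
  calc 1 / 2 * ‖z - w‖ ≤ 7 / 10 * ‖z - w‖ * (81/100) := by linarith
    _ ≤ _ := by gcongr

lemma Fq_lip {C R : ℝ} (hR : 1 ≤ R) (hC : 2 * R < C) (hC2 : C < 3 * R) {z w : ℂ} (hz : ‖z‖ ≤ R)
    (hw : ‖w‖ ≤ R) : ‖Fq C R z - Fq C R w‖ ≤ (7 / 10) * ‖z - w‖ := by
  have hR0 : (20 * (R:ℂ) ^ 2) ≠ 0 := by
    have : (R:ℂ) ≠ 0 := by
      have : R ≠ 0 := by linarith
      exact_mod_cast this
    exact mul_ne_zero (by norm_num) (pow_ne_zero 2 this)
  have e : Fq C R z - Fq C R w = -((z - w) * (z + w - 2 * C)) / (20 * (R:ℂ) ^ 2) := by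
    unfold Fq
    field_simp
    ring
  rw [e, norm_div, norm_neg, norm_mul]
  have h1 : ‖(20 * (R:ℂ) ^ 2)‖ = 20 * R ^ 2 := by
    rw [norm_mul, norm_pow, Complex.norm_real, Real.norm_eq_abs, abs_of_nonneg (by linarith)]
    simp
  have h2 : ‖z + w - 2 * C‖ ≤ 8 * R := by
    calc ‖z + w - 2 * C‖ ≤ ‖z + w‖ + ‖2 * (C:ℂ)‖ := norm_sub_le _ _
      _ ≤ (‖z‖ + ‖w‖) + 2 * C := by
          gcongr
          · exact norm_add_le _ _
          · rw [norm_mul, Complex.norm_real, Real.norm_eq_abs, abs_of_nonneg (by linarith)]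
            simp
      _ ≤ 8 * R := by linarith
  rw [h1, div_le_iff₀ (by positivity)]
  have hn := norm_nonneg (z - w)
  calc ‖z - w‖ * ‖z + w - 2 * C‖ ≤ ‖z - w‖ * (8 * R) := by gcongr
    _ ≤ 7 / 10 * ‖z - w‖ * (20 * R ^ 2) := by
        have : 8 * R ≤ 14 * R ^ 2 := by nlinarith
        nlinarith

/-- the maps form an analytic IFS -/
lemma isIFS {ε κ C R : ℝ} (hε : 0 < ε) (hR : R = 1 + 2 * ε) (h : Good κ C R) :
    IsAnalyticIFS ε (fr κ C R) := by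
  refine ⟨by norm_num, fun a => ?_⟩
  have hR1 := h.R1
  have hclos : ∀ z ∈ closure (nbhd ε), ‖z‖ ≤ R := by
    intro z hz
    obtain ⟨x, hx, hd⟩ := closure_nbhd hε hz
    have h1 : ‖z‖ ≤ ‖z - (x:ℂ)‖ + ‖(x:ℂ)‖ := by
      simpa using norm_add_le (z - (x:ℂ)) (x:ℂ)
    have h2 : ‖(x:ℂ)‖ ≤ 1 := by
      rw [Complex.norm_real, Real.norm_eq_abs, abs_of_nonneg hx.1]; exact hx.2
    linarith
  have hreal : ∀ x ∈ Icc (0:ℝ) 1, ‖(x:ℂ)‖ ≤ R := by
    intro x hx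
    rw [Complex.norm_real, Real.norm_eq_abs, abs_of_nonneg hx.1]
    linarith [hx.2]
  by_cases ha : a = 4
  · subst ha
    refine ⟨Fq C R, ?_, ?_, fun x hx => fr_mem h 4 hx, ?_, ?_⟩
    · intro x _
      rw [fr_four]
      simp [Fq]
    · intro z _
      have hR0 : (20 * (R:ℂ) ^ 2) ≠ 0 := by
        have : (R:ℂ) ≠ 0 := by
          have : R ≠ 0 := by linarith
          exact_mod_cast this
        exact mul_ne_zero (by norm_num) (pow_ne_zero 2 this)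
      have : AnalyticAt ℂ (fun z : ℂ => 1 - (z - C) ^ 2 / (20 * (R:ℂ) ^ 2)) z := by
        apply AnalyticAt.sub analyticAt_const
        apply AnalyticAt.div
        · fun_prop
        · exact analyticAt_const
        · exact hR0
      exact this
    · intro z hz
      obtain ⟨x, hx, hd⟩ := closure_nbhd hε hz
      apply Metric.mem_thickening_iff.2
      refine ⟨(fr κ C R 4 x : ℂ), ⟨_, fr_mem h 4 hx, rfl⟩, ?_⟩
      have e : (fr κ C R 4 x : ℂ) = Fq C R x := by rw [fr_four]; simp [Fq]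
      rw [e, dist_eq_norm]
      have := Fq_lip hR1 h.C1 h.C2 (hclos z hz) (hreal x hx)
      linarith
    · intro z hz
      have hz' := hclos z hz
      rw [Fq_deriv, norm_neg, norm_div, norm_mul]
      have h1 : ‖(20 * (R:ℂ) ^ 2)‖ = 20 * R ^ 2 := by
        rw [norm_mul, norm_pow, Complex.norm_real, Real.norm_eq_abs, abs_of_nonneg (by linarith)]
        simp
      have h2 : ‖(2:ℂ)‖ = 2 := by simp
      have hC0 : ‖(C:ℂ)‖ = C := by
        rw [Complex.norm_real, Real.norm_eq_abs, abs_of_nonneg (by linarith [h.C1])]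
      have h3 : ‖z - C‖ ≤ 4 * R := by
        calc ‖z - C‖ ≤ ‖z‖ + ‖(C:ℂ)‖ := norm_sub_le _ _
          _ ≤ 4 * R := by rw [hC0]; linarith [h.C2]
      have h4 : R ≤ ‖z - C‖ := by
        have := norm_sub_norm_le (C:ℂ) z
        rw [hC0, norm_sub_rev] at this
        linarith [h.C1]
      rw [h1, h2]
      constructor
      · have : 0 < ‖z - C‖ := by linarith
        positivity
      · rw [div_lt_one (by positivity)]
        nlinarith
  · have hk := h.κpos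
    have hq : 0 ≤ κ * dig a := mul_nonneg hk.le (dig_nonneg a)
    have hqR : κ * dig a * R ≤ 1 / 10 := by
      have h1 := dig_le a
      have h2 := dig_nonneg a
      calc κ * dig a * R = dig a * (κ * R) := by ring
        _ ≤ 1 * (κ * R) := by rw [h.κR]; gcongr
        _ = 1 / 10 := by rw [h.κR]; norm_num
    refine ⟨Fm (κ * dig a), ?_, ?_, fun x hx => fr_mem h a hx, ?_, ?_⟩
    · intro x _
      rw [fr_D _ _ _ _ ha]
      simp [Fm]
    · intro z hz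
      have hz' : ‖z‖ ≤ R := by
        have := norm_lt_of_nbhd hz
        linarith
      have : AnalyticAt ℂ (fun z : ℂ => (z / 2) / (1 - ((κ * dig a : ℝ) : ℂ) * z)) z := by
        apply AnalyticAt.div
        · fun_prop
        · fun_prop
        · exact den_ne hq hqR hz'
      exact this
    · intro z hz
      obtain ⟨x, hx, hd⟩ := closure_nbhd hε hz
      apply Metric.mem_thickening_iff.2
      refine ⟨(fr κ C R a x : ℂ), ⟨_, fr_mem h a hx, rfl⟩, ?_⟩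
      have e : (fr κ C R a x : ℂ) = Fm (κ * dig a) x := by rw [fr_D _ _ _ _ ha]; simp [Fm]
      rw [e, dist_eq_norm]
      have := Fm_lip hq hqR (hclos z hz) (hreal x hx)
      linarith
    · intro z hz
      have hz' := hclos z hz
      have hd := den_bound hq hqR hz'
      rw [Fm_deriv (den_ne hq hqR hz'), norm_div, norm_pow]
      have h12 : ‖(1 / 2 : ℂ)‖ = 1 / 2 := by simp
      rw [h12]
      constructor
      · positivity
      · rw [div_lt_one (by positivity)]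
        nlinarith

/-- a good parameter exists -/
lemma exists_good {R : ℝ} (hR : 1 ≤ R) : ∃ κ C : ℝ, Good κ C R := by
  set κ := 1 / (10 * R) with hκ
  have hκ0 : 0 < κ := by positivity
  let bad : List (Fin 5) × List (Fin 5) → Set ℝ := fun p =>
    {C | S p.1 ≠ S p.2 ∧ (1 / 2 : ℝ) ^ p.1.length + κ * S p.1 * C
      = (1 / 2 : ℝ) ^ p.2.length + κ * S p.2 * C}
  have hbad : ∀ p, (bad p).Countable := by
    intro p
    apply Set.Subsingleton.countable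
    intro C hC D hD
    have h1 := hC.2
    have h2 := hD.2
    have h3 : κ * (S p.1 - S p.2) * (C - D) = 0 := by linarith
    have h4 : κ * (S p.1 - S p.2) ≠ 0 := mul_ne_zero hκ0.ne' (sub_ne_zero.2 hC.1)
    have h5 := (mul_eq_zero.1 h3).resolve_left h4
    linarith
  have hall : (⋃ p, bad p).Countable := Set.countable_iUnion hbad
  have hdense := hall.dense_compl ℝ
  obtain ⟨C, hC1, hC2⟩ := hdense.exists_mem_open isOpen_Ioo
    (nonempty_Ioo.2 (by linarith : 2 * R < 3 * R))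
  refine ⟨κ, C, hκ0, ?_, hR, hC2.1, hC2.2, ?_⟩
  · rw [hκ]; field_simp
  · intro u v huv heq
    exact hC1 (mem_iUnion.2 ⟨(u, v), huv, heq⟩)

/-- For every `ε > 0` there is an analytic IFS (consisting of five maps without a common fixed
point, so that its attractor is not a point) which has super-exponential condensation, has no
exact overlap and is not sub-conjugated to a self-similar IFS. -/
theorem result : ∀ ε : ℝ, 0 < ε → ∃ (N : ℕ) (f : Fin N → ℝ → ℝ),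
    IsAnalyticIFS ε f ∧ ¬ ESC f ∧ ¬ ExactOverlap f ∧ ¬ SubConjugated f ∧
      ¬ ∃ x, ∀ i, f i x = x := by
  intro ε hε
  obtain ⟨κ, C, h⟩ := exists_good (R := 1 + 2 * ε) (by linarith)
  refine ⟨5, fr κ C (1 + 2 * ε), isIFS hε rfl h, ?_, ?_, ?_, ?_⟩
  · rintro ⟨c, hc, hK⟩
    obtain ⟨K, hcond⟩ := condense h c hc
    obtain ⟨n, hn, hsep⟩ := hK K
    obtain ⟨u, v, hu, hv, huv, B, hB, hle⟩ := hcond n hn
    have h1 := hsep u v hu hv huv
    have : Nonempty (Icc (0:ℝ) 1) := ⟨⟨0, by simp⟩⟩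
    have h2 : (⨆ x : Icc (0:ℝ) 1, |comp (fr κ C (1 + 2 * ε)) u x
        - comp (fr κ C (1 + 2 * ε)) v x|) ≤ B := ciSup_le (fun x => hle x x.2)
    linarith
  · rintro ⟨u, v, huv, he⟩
    exact huv (Eq01_eq h _ u v le_rfl he)
  · rintro ⟨u, v, huv, hl, g, hg, hgi, l₁, l₂, t₁, t₂, a1, a2, b1, b2, he⟩
    apply huv
    refine Sh_eq h u.length u v [] rfl hl.symm ⟨g, hg, hgi, l₁, t₁, l₂, t₂, a2,
      abs_lt.2 ⟨a1.1, a1.2⟩, b2, abs_lt.2 ⟨b1.1, b1.2⟩, fun x hx => (he x hx).1,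
      fun x hx => (he x hx).2⟩
  · rintro ⟨x, hx⟩
    have h0 := hx 0
    have h4 := hx 4
    rw [fr_D _ _ _ _ (by decide)] at h0
    have hd : dig 0 = 0 := by simp [dig]
    rw [hd] at h0
    have hx0 : x = 0 := by
      simp at h0; linarith
    rw [hx0, fr_four] at h4
    have h1 := h.C1
    have h2 := h.C2
    have hR := h.R1
    have hR2 : (20 * (1 + 2 * ε) ^ 2) ≠ 0 := by positivity
    field_simp at h4
    nlinarith

end Pool.Agent.Results.MP_6f21ce_an.NotSubconjugated
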